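import Mathlib
import Pool.Agent.Helper34.EK.A
import Pool.Agent.Helper34.EK.B
import Pool.Agent.Helper34.EK.V4
import Pool.Agent.Helper34.EK.V5
import Pool.Agent.Helper34.EK.W2
import Pool.Agent.Helper34.TRI.T

/-!
# Asymptotic formulas for products of three primes in all parts of the rows of the triangular arrangement

The problem asks for a prime in row `n`, that is in `(n (n - 1) / 2, n (n + 1) / 2]`, for all `n ≥ 2`. We prove asymptotic
formulas with the expected main term for the products of three primes `q a p`, `q` in `(X ^ α, X ^ β]`, `a` in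
`(X ^ γ, X ^ δ]`, `1 / 2 < α < β < 1`, `β + δ < 1`, in ALL parts of length at least `κ n` of row `n`, in particular in the
whole row, for all but at most `X ^ (2 - 2 α + ε)` of the rows with `X < n ≤ 2 X`; for `α` near `1` this is a very small power
of `X`. In fact the products `q a p` have the expected number for all the integers `q` of `(X ^ α, X ^ β]` simultaneously, in
the mean, with an error `h / (log X) ^ K`.

Method (as for the intervals `[n ^ 2 - n, n ^ 2 + n]` in `MP_a8fbd7_nt.ThreePrimesAsymptotic`). For a window `(y, y + H]` the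
products with a given `q` correspond to the products `a p` in the window of length `H / q` next to `y / q`. For an arbitrary
set of `s ^ 2` windows, `s ≥ Y / (H Q)`, these short windows are distributed evenly (a count of quadruples of two windows and
two divisors), so that it is enough to know the number of the products `a p` in almost all windows of length `Y ^ η a`, which
is obtained with Parseval's identity and Vinogradov's zero free region.
-/

set_option autoImplicit false

namespace Pool.Agent.Results.MP_c09310_nt.ThreePrimesInRows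
open Finset

/-- The primes `a` with `P < a ≤ R`. -/
noncomputable def primes (P R : ℝ) : Finset ℕ := (Ioc ⌊P⌋₊ ⌊R⌋₊).filter Nat.Prime

/-- The sum of `log p` over the pairs of primes `a`, `p` with `P < a ≤ R` and `u < q a p ≤ u + h`. -/
noncomputable def psi (P R : ℝ) (u h q : ℕ) : ℝ :=
  ∑ a ∈ primes P R, ∑ p ∈ (Icc 1 (u + h)).filter (fun p => p.Prime ∧ u < q * a * p ∧ q * a * p ≤ u + h), Real.log p

/-- Let `1 / 2 < α < β`, `0 < γ < δ`, `β + δ < 1`, `κ > 0`, `ε > 0`. Row `n` is the interval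
`(n (n - 1) / 2, n (n + 1) / 2]`; it contains `(u, u + h]` if `n (n - 1) ≤ 2 u` and `2 (u + h) ≤ n (n + 1)`.

1. For every `K` and all large `X`: for all but at most `X ^ (2 - 2 α + ε)` of the integers `n` in `(X, 2 X]` EVERY
interval `(u, u + h]` of length `h ≥ κ n` contained in row `n` satisfies
`∑_q |∑_{a, p} log p - (h / q) ∑_a 1 / a| ≤ h / (log X) ^ K`, where `q` runs over ALL the integers in `(X ^ α, X ^ β]`, `a` over
the primes in `(X ^ γ, X ^ δ]` and `p` over the primes with `u < q a p ≤ u + h`.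

2. For every `τ > 0` and all large `X`: for all but at most `X ^ (2 - 2 α + ε)` of the integers `n` in `(X, 2 X]` EVERY
interval `(u, u + h]` of length `h ≥ κ n` contained in row `n` satisfies
`|∑_{q, a, p} log p - h log (β / α) log (δ / γ)| ≤ τ h`, where the sum runs over the triples of primes `q` in `(X ^ α, X ^ β]`,
`a` in `(X ^ γ, X ^ δ]`, `p` with `u < q a p ≤ u + h`. -/
theorem result :
    (∀ α β γ δ κ ε : ℝ, 1 / 2 < α → α < β → 0 < γ → γ < δ → β + δ < 1 → 0 < κ → 0 < ε → ∀ K : ℕ,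
      ∃ X₀ : ℕ, ∀ X : ℕ, X₀ ≤ X →
        (Nat.card {n : ℕ | X < n ∧ n ≤ 2 * X ∧ ∃ u h : ℕ, κ * n ≤ h ∧ n * (n - 1) ≤ 2 * u ∧ 2 * (u + h) ≤ n * (n + 1) ∧
          (h : ℝ) / Real.log X ^ K < ∑ q ∈ Ioc ⌊(X : ℝ) ^ α⌋₊ ⌊(X : ℝ) ^ β⌋₊,
            |psi ((X : ℝ) ^ γ) ((X : ℝ) ^ δ) u h q - h / q * ∑ a ∈ primes ((X : ℝ) ^ γ) ((X : ℝ) ^ δ), 1 / (a : ℝ)|} : ℝ) ≤
          (X : ℝ) ^ (2 - 2 * α + ε)) ∧
    (∀ α β γ δ κ ε : ℝ, 1 / 2 < α → α < β → 0 < γ → γ < δ → β + δ < 1 → 0 < κ → 0 < ε → ∀ τ : ℝ, 0 < τ →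
      ∃ X₀ : ℕ, ∀ X : ℕ, X₀ ≤ X →
        (Nat.card {n : ℕ | X < n ∧ n ≤ 2 * X ∧ ∃ u h : ℕ, κ * n ≤ h ∧ n * (n - 1) ≤ 2 * u ∧ 2 * (u + h) ≤ n * (n + 1) ∧
          τ * h < |∑ q ∈ primes ((X : ℝ) ^ α) ((X : ℝ) ^ β), psi ((X : ℝ) ^ γ) ((X : ℝ) ^ δ) u h q -
            h * (Real.log (β / α) * Real.log (δ / γ))|} : ℝ) ≤ (X : ℝ) ^ (2 - 2 * α + ε)) := by
  have h := Pool.Agent.Helper34.TRI.t1
    (Pool.Agent.Helper34.EK.w (Pool.Agent.Helper34.EK.v' (Pool.Agent.Helper34.EK.v Pool.Agent.Helper34.EK.a1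
      Pool.Agent.Helper34.EK.a2 Pool.Agent.Helper34.EK.b)))
  have h2 := Pool.Agent.Helper34.TRI.t2 h
  exact ⟨h, h2⟩

end Pool.Agent.Results.MP_c09310_nt.ThreePrimesInRows
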